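import Pool.Agent.MP_154433_an.t3f.Plumb

/-! Two families of dual functions on transversal lines: the weighted sums are small. -/

set_option autoImplicit false
set_option linter.unusedVariables false

open MeasureTheory ProbabilityTheory Filter Topology Function
open scoped BigOperators

noncomputable section

namespace Pool.Agent.MP_154433_an.T6H

open T3S

/-- one dual function on each horizontal and on each vertical line of the square -/
def StrL (w : ℕ → ℕ → ℝ) : Prop := ∀ (k C0 : ℕ) (A ε : ℝ), 1 ≤ C0 → 0 < A → 0 < ε →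
  ∀ᶠ M in atTop, ∀ [NeZero (C0 * M)] (U V : ℕ → ZMod (C0 * M) → ℂ), (∀ n, Dual k A (U n)) →
    (∀ n, Dual k A (V n)) →
    ∑ a ∈ Finset.range M, ∑ b ∈ Finset.range M, ‖∑ d ∈ Finset.range M, (w M d : ℂ) *
      (U b (((a : ℤ) + d : ℤ) : ZMod (C0 * M)) * V a (((b : ℤ) + d : ℤ) : ZMod (C0 * M)))‖ ≤
      ε * M ^ 2

lemma dual_mono {G : Type} [AddCommGroup G] [Fintype G] {k : ℕ} {A A' : ℝ} (h : A ≤ A')
    {u : G → ℂ} (hu : Dual k A u) : Dual k A' u :=
  ⟨hu.1, fun g hg => (hu.2 g hg).trans (mul_le_mul_of_nonneg_right h (Q_nonneg k g))⟩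

lemma netL (h : T3F.CovZ) (k C0 : ℕ) (A ε : ℝ) (hC : 1 ≤ C0) (hA : 0 < A) (hε : 0 < ε) :
    ∃ (C : ℝ) (S : ℕ → Finset (ℕ → ℂ)), (∀ M, ∀ c ∈ S M, B1 c) ∧
    (∀ M, 1 ≤ M → ((S M).card : ℝ) ≤ Real.exp (C * (Real.log M + 1) ^ 1)) ∧
    ∀ (M : ℕ) [NeZero (C0 * M)] (y : ℕ → ℝ) (τ : ℝ),
      (∀ c ∈ S M, ‖∑ d ∈ Finset.range M, (y d : ℂ) * c d‖ ≤ τ) →
      ∀ U V : ℕ → ZMod (C0 * M) → ℂ, (∀ n, Dual k A (U n)) → (∀ n, Dual k A (V n)) →
      ∑ a ∈ Finset.range M, ∑ b ∈ Finset.range M, ‖∑ d ∈ Finset.range M, (y d : ℂ) *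
        (U b (((a : ℤ) + d : ℤ) : ZMod (C0 * M)) * V a (((b : ℤ) + d : ℤ) : ZMod (C0 * M)))‖ ≤
        (τ + ε * ∑ d ∈ Finset.range M, |y d|) * M ^ 2 := by
  classical
  have hCr : (0 : ℝ) < C0 := by exact_mod_cast hC
  obtain ⟨C1, hC1, hV⟩ := h k A (ε / (2 * C0)) hA (by positivity)
  have key : ∀ M : ℕ, ∃ S : Finset (ℕ → ℂ), (∀ c ∈ S, B1 c) ∧
      (1 ≤ M → (S.card : ℝ) ≤ Real.exp
        (2 * (1 + (1 : ℕ) * C1 * (Real.log C0 + 1) ^ 1) * (Real.log M + 1) ^ 1)) ∧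
      ∀ [NeZero (C0 * M)] (y : ℕ → ℝ) (τ : ℝ),
      (∀ c ∈ S, ‖∑ d ∈ Finset.range M, (y d : ℂ) * c d‖ ≤ τ) →
      ∀ U V : ℕ → ZMod (C0 * M) → ℂ, (∀ n, Dual k A (U n)) → (∀ n, Dual k A (V n)) →
      ∑ a ∈ Finset.range M, ∑ b ∈ Finset.range M, ‖∑ d ∈ Finset.range M, (y d : ℂ) *
        (U b (((a : ℤ) + d : ℤ) : ZMod (C0 * M)) * V a (((b : ℤ) + d : ℤ) : ZMod (C0 * M)))‖ ≤
        (τ + ε * ∑ d ∈ Finset.range M, |y d|) * M ^ 2 := by
    intro M
    rcases Nat.eq_zero_or_pos M with rfl | hM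
    · exact ⟨∅, by simp, fun h => absurd h (by omega), by simp⟩
    have : NeZero (C0 * M) := ⟨(Nat.mul_pos hC hM).ne'⟩
    obtain ⟨W, hV1, hV2, hV3⟩ := hV (C0 * M)
    have hMr : (0 : ℝ) < M := by exact_mod_cast hM
    refine ⟨((Finset.range M ×ˢ W) ×ˢ (Finset.range M ×ˢ W)).image fun p (d : ℕ) =>
      p.1.2 (((p.1.1 : ℤ) + d : ℤ) : ZMod (C0 * M)) * p.2.2 (((p.2.1 : ℤ) + d : ℤ) : ZMod (C0 * M)),
      fun c hc => ?_, fun _ => ?_, fun y τ hτ U V hU hV => ?_⟩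
    · obtain ⟨p, hp, rfl⟩ := Finset.mem_image.1 hc
      simp only [Finset.mem_product] at hp
      exact ((hV1 _ hp.1.2).comp _).mul ((hV1 _ hp.2.2).comp _)
    · rw [LG, ZMod.card, ← pow_one (Real.log _ + 1)] at hV2
      have k1 := Net.card_le (J := 1) hM hC le_rfl hC1 hV2
      refine le_trans (b := ((M * W.card ^ 1 : ℕ) : ℝ) * ((M * W.card ^ 1 : ℕ) : ℝ)) ?_ ?_
      · rw [← Nat.cast_mul, Nat.cast_le]
        refine Finset.card_image_le.trans (le_of_eq ?_)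
        simp only [Finset.card_product, Finset.card_range, pow_one]
      · refine (mul_le_mul k1 k1 (Nat.cast_nonneg _) (Real.exp_pos _).le).trans (le_of_eq ?_)
        rw [← Real.exp_add]
        congr 1
        ring
    · choose u hu1 hu2 using fun n => hV3 (U n) (hU n)
      choose v hv1 hv2 using fun n => hV3 (V n) (hV n)
      have step : ∀ a ∈ Finset.range M, ∀ b ∈ Finset.range M,
          ‖∑ d ∈ Finset.range M, (y d : ℂ) * (U b (((a : ℤ) + d : ℤ) : ZMod (C0 * M)) *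
            V a (((b : ℤ) + d : ℤ) : ZMod (C0 * M)))‖ ≤ τ + ∑ d ∈ Finset.range M, |y d| *
            (‖U b (((a : ℤ) + d : ℤ) : ZMod (C0 * M)) - u b (((a : ℤ) + d : ℤ) : ZMod (C0 * M))‖ +
            ‖V a (((b : ℤ) + d : ℤ) : ZMod (C0 * M)) -
              v a (((b : ℤ) + d : ℤ) : ZMod (C0 * M))‖) := by
        intro a ha b hb
        have e0 := hτ _ (Finset.mem_image_of_mem _ (Finset.mem_product.2
          (⟨Finset.mem_product.2 ⟨ha, hu1 b⟩, Finset.mem_product.2 ⟨hb, hv1 a⟩⟩ :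
            ((a, u b), (b, v a)).1 ∈ _ ∧ ((a, u b), (b, v a)).2 ∈ _)))
        refine (norm_le_insert' _ _).trans (add_le_add e0 ?_)
        rw [← Finset.sum_sub_distrib]
        refine (norm_sum_le _ _).trans (Finset.sum_le_sum fun d _ => ?_)
        rw [← mul_sub, norm_mul, Complex.norm_real, Real.norm_eq_abs]
        refine mul_le_mul_of_nonneg_left ?_ (abs_nonneg _)
        generalize (((a : ℤ) + d : ℤ) : ZMod (C0 * M)) = s
        generalize (((b : ℤ) + d : ℤ) : ZMod (C0 * M)) = t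
        rw [show U b s * V a t - u b s * v a t =
          (U b s - u b s) * V a t + u b s * (V a t - v a t) by ring]
        refine (norm_add_le _ _).trans (add_le_add ?_ ?_) <;> rw [norm_mul]
        · exact mul_le_of_le_one_right (norm_nonneg _) ((hV a).1 t)
        · exact mul_le_of_le_one_left (norm_nonneg _) (hV1 _ (hu1 b) s)
      refine (Finset.sum_le_sum fun a ha => Finset.sum_le_sum (step a ha)).trans ?_
      have line : ∀ (P p : ℕ → ZMod (C0 * M) → ℂ), (∀ n, 𝔼 x, ‖P n x - p n x‖ ≤ ε / (2 * C0)) →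
          ∀ d : ℕ, ∑ b ∈ Finset.range M, ∑ a ∈ Finset.range M,
            ‖P b (((a : ℤ) + d : ℤ) : ZMod (C0 * M)) - p b (((a : ℤ) + d : ℤ) : ZMod (C0 * M))‖ ≤
            ε / 2 * M ^ 2 := fun P p hp d => by
        refine (Finset.sum_le_sum (g := fun _ => ε / 2 * M) fun b _ => ?_).trans (le_of_eq ?_)
        · refine (Net.sum_le (Nat.le_mul_of_pos_left M hC) (d : ℤ)
            (F := fun x => ‖P b x - p b x‖) fun x => norm_nonneg _).trans
            ((mul_le_mul_of_nonneg_left (hp b) (Nat.cast_nonneg _)).trans (le_of_eq ?_))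
          push_cast
          field_simp
        · rw [Finset.sum_const, Finset.card_range, nsmul_eq_mul]
          ring
      simp only [Finset.sum_add_distrib, Finset.sum_const, Finset.card_range, nsmul_eq_mul]
      rw [add_mul, Finset.sum_congr rfl fun a _ => Finset.sum_comm, Finset.sum_comm,
        Finset.mul_sum, Finset.sum_mul]
      refine add_le_add (le_of_eq (by ring)) (Finset.sum_le_sum fun d _ => ?_)
      simp only [← Finset.mul_sum, Finset.sum_add_distrib]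
      have a1 := line U u hu2 d
      have a2 := line V v hv2 d
      rw [Finset.sum_comm] at a1
      nlinarith [mul_le_mul_of_nonneg_left (add_le_add a1 a2) (abs_nonneg (y d))]
  choose S hS1 hS2 hS3 using key
  exact ⟨_, S, hS1, hS2, fun M _ => hS3 M⟩

theorem aeL (h : T3F.CovZ) (σ : ℕ → ℝ) (hσ : ∀ n, 0 ≤ σ n ∧ σ n ≤ 1) (Ω : Type)
    [MeasurableSpace Ω] (P : Measure Ω) [IsProbabilityMeasure P] (E : ℕ → Set Ω)
    (hE : ∀ n, MeasurableSet (E n)) (hind : iIndepSet E P)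
    (hP : ∀ n, P (E n) = ENNReal.ofReal (σ n)) (hg : Gr σ 1) :
    ∀ᵐ ω ∂P, Bd (yw σ fun m => ω ∈ E m) → StrL (yw σ fun m => ω ∈ E m) := by
  have hstr : ∀ᵐ ω ∂P, ∀ (k C0 A j : ℕ), 1 ≤ C0 → Bd (yw σ fun m => ω ∈ E m) →
      ∀ᶠ M in atTop, ∀ [NeZero (C0 * M)] (U V : ℕ → ZMod (C0 * M) → ℂ),
      (∀ n, Dual k ((A : ℝ) + 1) (U n)) → (∀ n, Dual k ((A : ℝ) + 1) (V n)) →
      ∑ a ∈ Finset.range M, ∑ b ∈ Finset.range M, ‖∑ d ∈ Finset.range M,
        (yw σ (fun m => ω ∈ E m) M d : ℂ) * (U b (((a : ℤ) + d : ℤ) : ZMod (C0 * M)) *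
          V a (((b : ℤ) + d : ℤ) : ZMod (C0 * M)))‖ ≤ 4 * (1 / ((j : ℝ) + 1)) * M ^ 2 := by
    simp only [ae_all_iff]
    intro k C0 A j hC
    obtain ⟨C, S, s1, s2, s3⟩ := netL h k C0 ((A : ℝ) + 1) (1 / ((j : ℝ) + 1)) hC (by positivity)
      (by positivity)
    have := ub σ hσ Ω P E hE hind hP 1 le_rfl hg C S s1 s2 (1 / ((j : ℝ) + 1)) (by positivity)
    filter_upwards [this] with ω hω hbd
    filter_upwards [hω, hbd] with M m1 m3 _ U V hU hV
    refine (s3 M _ _ m1 U V hU hV).trans (mul_le_mul_of_nonneg_right ?_ (by positivity))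
    have := mul_le_mul_of_nonneg_left m3 (by positivity : (0 : ℝ) ≤ 1 / ((j : ℝ) + 1))
    linarith
  filter_upwards [hstr] with ω m2 hb k C0 A ε hC hA hε
  obtain ⟨j, hj⟩ := exists_nat_one_div_lt (by positivity : 0 < ε / 4)
  have hA' : A ≤ (⌈A⌉₊ : ℝ) + 1 := (Nat.le_ceil A).trans (by linarith)
  filter_upwards [m2 k C0 ⌈A⌉₊ j hC hb] with M hM _ U V hU hV
  exact (hM U V (fun n => dual_mono hA' (hU n)) fun n => dual_mono hA' (hV n)).trans
    (mul_le_mul_of_nonneg_right (by linarith) (by positivity))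

theorem nearL {w w' : ℕ → ℕ → ℝ} (hn : Near w w') (h : StrL w') : StrL w := by
  intro k C0 A ε hC hA hε
  filter_upwards [h k C0 A (ε / 2) hC hA (half_pos hε), hn.eventually_le_const (half_pos hε)]
    with M h1 h2 _ U V hU hV
  have step : ∀ c : ℕ → ℂ, B1 c → ‖∑ d ∈ Finset.range M, (w M d : ℂ) * c d‖ ≤
      ‖∑ d ∈ Finset.range M, (w' M d : ℂ) * c d‖ + ε / 2 := fun c hc => by
    refine (norm_le_insert' _ _).trans (add_le_add le_rfl (le_trans ?_ h2))
    rw [← Finset.sum_sub_distrib]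
    refine (norm_sum_le _ _).trans (Finset.sum_le_sum fun d _ => ?_)
    rw [← sub_mul, norm_mul, ← Complex.ofReal_sub, Complex.norm_real, Real.norm_eq_abs]
    exact mul_le_of_le_one_right (abs_nonneg _) (hc d)
  refine (Finset.sum_le_sum fun a _ => Finset.sum_le_sum fun b _ =>
    step _ (((hU b).1.comp _).mul ((hV a).1.comp _))).trans ?_
  simp only [Finset.sum_add_distrib, Finset.sum_const, Finset.card_range, nsmul_eq_mul]
  nlinarith [h1 U V hU hV]

end Pool.Agent.MP_154433_an.T6H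

end
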