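import Mathlib

/-! Empirical approximation of finitely many means by a short sample, and the resulting net of
twisted sums. -/

set_option autoImplicit false

open scoped BigOperators

noncomputable section

namespace Pool.Agent.MP_154433_an.T6H

lemma exp_le {y : ℝ} (h : |y| ≤ 1) : Real.exp y ≤ 1 + y + y ^ 2 := by
  have := (abs_le.1 (Real.abs_exp_sub_one_sub_id_le h)).2
  linarith

lemma exists_le_mean {G : Type} [Fintype G] (π : G → ℝ) (h0 : ∀ x, 0 ≤ π x) (h1 : ∑ x, π x = 1)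
    (f : G → ℝ) {c : ℝ} (h : ∑ x, π x * f x ≤ c) : ∃ x, f x ≤ c := by
  by_contra k
  push Not at k
  obtain ⟨x, hx⟩ : ∃ x, 0 < π x := by
    by_contra k2
    push Not at k2
    have := Finset.sum_nonpos (s := Finset.univ) fun x _ => k2 x
    linarith
  have := Finset.sum_lt_sum (s := Finset.univ) (f := fun x => π x * c) (g := fun x => π x * f x)
    (fun x _ => mul_le_mul_of_nonneg_left (k x).le (h0 x))
    ⟨x, Finset.mem_univ _, mul_lt_mul_of_pos_left (k x) hx⟩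
  rw [← Finset.sum_mul, h1, one_mul] at this
  linarith

lemma greedy {G P : Type} [Fintype G] [Fintype P] (π : G → ℝ) (h0 : ∀ x, 0 ≤ π x)
    (hπ : ∑ x, π x = 1) (a : P → G → ℝ) (h1 : ∀ p x, |a p x| ≤ 1)
    (h2 : ∀ p, ∑ x, π x * a p x = 0) {s : ℝ} (s0 : 0 ≤ s) (s1 : s ≤ 1) (n : ℕ) :
    ∃ t : Fin n → G, ∑ p, Real.exp (s * ∑ j, a p (t j) - n * s ^ 2) ≤ Fintype.card P := by
  induction n with
  | zero => exact ⟨Fin.elim0, by simp⟩
  | succ n ih =>
    obtain ⟨t, ht⟩ := ih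
    have key : ∀ p, ∑ x, π x * Real.exp (s * a p x - s ^ 2) ≤ 1 := fun p => by
      have e1 : ∀ x, Real.exp (s * a p x - s ^ 2) ≤
          (1 + s ^ 2) * Real.exp (-s ^ 2) + s * Real.exp (-s ^ 2) * a p x := fun x => by
        rw [sub_eq_add_neg, Real.exp_add]
        refine (mul_le_mul_of_nonneg_right ((exp_le ?_).trans
          (?_ : _ ≤ 1 + s * a p x + s ^ 2)) (Real.exp_pos _).le).trans (le_of_eq (by ring))
        · rw [abs_mul, abs_of_nonneg s0]
          exact mul_le_one₀ s1 (abs_nonneg _) (h1 p x)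
        · have := (sq_le_one_iff_abs_le_one _).2 (h1 p x)
          nlinarith [sq_nonneg s]
      refine (Finset.sum_le_sum fun x _ => mul_le_mul_of_nonneg_left (e1 x) (h0 x)).trans ?_
      simp only [mul_add (π _), mul_left_comm (π _)]
      rw [Finset.sum_add_distrib, ← Finset.mul_sum, ← Finset.mul_sum, ← Finset.sum_mul, hπ, h2,
        one_mul, mul_zero, add_zero, Real.exp_neg, ← div_eq_mul_inv, div_le_one (Real.exp_pos _)]
      linarith [Real.add_one_le_exp (s ^ 2)]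
    obtain ⟨x, hx⟩ := exists_le_mean π h0 hπ
      (fun x => ∑ p, Real.exp (s * ∑ j, a p (t j) - n * s ^ 2) * Real.exp (s * a p x - s ^ 2))
      (c := ∑ p, Real.exp (s * ∑ j, a p (t j) - n * s ^ 2)) (by
        rw [Finset.sum_congr rfl fun x _ => Finset.mul_sum _ _ (π x), Finset.sum_comm]
        refine Finset.sum_le_sum fun p _ => ?_
        simp only [mul_left_comm (π _)]
        rw [← Finset.mul_sum]
        exact mul_le_of_le_one_right (Real.exp_pos _).le (key p))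
    refine ⟨Fin.cons x t, le_trans (le_of_eq ?_) (hx.trans ht)⟩
    refine Finset.sum_congr rfl fun p _ => ?_
    rw [← Real.exp_add, Fin.sum_univ_succ]
    simp only [Fin.cons_zero, Fin.cons_succ]
    congr 1
    push_cast
    ring

lemma maureyR {G P : Type} [Fintype G] [Fintype P] (π : G → ℝ) (h0 : ∀ x, 0 ≤ π x)
    (hπ : ∑ x, π x = 1) (a : P → G → ℝ) (h1 : ∀ p x, |a p x| ≤ 1)
    (h2 : ∀ p, ∑ x, π x * a p x = 0) {δ : ℝ} (d0 : 0 < δ) (d1 : δ ≤ 2) {n : ℕ}
    (hn : 4 * Real.log (Fintype.card P) ≤ n * δ ^ 2) :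
    ∃ t : Fin n → G, ∀ p, ∑ j, a p (t j) ≤ n * δ := by
  obtain ⟨t, ht⟩ := greedy π h0 hπ a h1 h2 (s := δ / 2) (by positivity) (by linarith) n
  refine ⟨t, fun p => ?_⟩
  have hc : (0 : ℝ) < Fintype.card P := by exact_mod_cast Fintype.card_pos_iff.2 ⟨p⟩
  have k := (Finset.single_le_sum
    (f := fun p => Real.exp (δ / 2 * ∑ j, a p (t j) - n * (δ / 2) ^ 2))
    (fun _ _ => (Real.exp_pos _).le) (Finset.mem_univ p)).trans ht
  rw [← Real.le_log_iff_exp_le hc] at k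
  refine le_of_mul_le_mul_left ?_ d0
  nlinarith

/-- the four unit phases -/
def ph (b : Bool × Bool) : ℂ := (bif b.1 then 1 else Complex.I) * (bif b.2 then 1 else -1)

/-- signed real or imaginary part -/
def sg (b : Bool × Bool) (z : ℂ) : ℝ := (bif b.2 then 1 else -1) * (bif b.1 then z.re else z.im)

lemma norm_ph (b : Bool × Bool) : ‖ph b‖ = 1 := by
  rcases b with ⟨_ | _, _ | _⟩ <;> simp [ph]

lemma abs_sg (b : Bool × Bool) (z : ℂ) : |sg b z| ≤ ‖z‖ := by
  have := Complex.abs_re_le_norm z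
  have := Complex.abs_im_le_norm z
  rcases b with ⟨_ | _, _ | _⟩ <;> simpa [sg]

lemma sg_sum {ι : Type} (s : Finset ι) (b : Bool × Bool) (z : ι → ℂ) :
    sg b (∑ i ∈ s, z i) = ∑ i ∈ s, sg b (z i) := by
  rcases b with ⟨_ | _, _ | _⟩ <;> simp [sg]

lemma sg_mul (b : Bool × Bool) (r : ℝ) (z : ℂ) : sg b (r * z) = r * sg b z := by
  rcases b with ⟨_ | _, _ | _⟩ <;> simp [sg]

lemma norm_le_sg {z : ℂ} {c : ℝ} (h : ∀ b, sg b z ≤ c) : ‖z‖ ≤ 2 * c := by
  have a1 := h (true, true)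
  have a2 := h (true, false)
  have a3 := h (false, true)
  have a4 := h (false, false)
  simp only [sg, cond_true, cond_false, one_mul, neg_mul] at a1 a2 a3 a4
  have b1 : |z.re| ≤ c := abs_le.2 ⟨by linarith, a1⟩
  have b2 : |z.im| ≤ c := abs_le.2 ⟨by linarith, a3⟩
  linarith [Complex.norm_le_abs_re_add_abs_im z]

lemma sum_ph (z : ℂ) : ∑ b, ((max (sg b z) 0 : ℝ) : ℂ) * ph b = z := by
  have k : ∀ r : ℝ, ((max r 0 : ℝ) : ℂ) - ((max (-r) 0 : ℝ) : ℂ) = r := fun r => by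
    rw [← Complex.ofReal_sub, max_zero_sub_max_neg_zero_eq_self]
  simp only [Fintype.sum_prod_type, Fintype.sum_bool, sg, ph, cond_true, cond_false, one_mul,
    neg_mul, mul_one, mul_neg]
  conv_rhs => rw [← Complex.re_add_im z, ← k z.re, ← k z.im]
  ring

lemma sum_max (z : ℂ) : ∑ b, max (sg b z) 0 ≤ 2 * ‖z‖ := by
  have k : ∀ r : ℝ, max r 0 + max (-r) 0 = |r| := fun r => max_zero_add_max_neg_zero_eq_abs_self r
  simp only [Fintype.sum_prod_type, Fintype.sum_bool, sg, cond_true, cond_false, one_mul,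
    neg_mul, k]
  linarith [Complex.abs_re_le_norm z, Complex.abs_im_le_norm z]

/-- a short sample approximates all means -/
theorem maurey {G P : Type} [Fintype G] [Fintype P] (π : G → ℝ) (h0 : ∀ x, 0 ≤ π x)
    (hπ : ∑ x, π x = 1) (a : P → G → ℂ) (h1 : ∀ p x, ‖a p x‖ ≤ 1) {ε : ℝ} (e0 : 0 < ε)
    (e1 : ε ≤ 1) {n : ℕ} (n0 : 0 < n) (hn : 64 * Real.log (4 * Fintype.card P) ≤ n * ε ^ 2) :
    ∃ t : Fin n → G, ∀ p, ‖∑ x, (π x : ℂ) * a p x - (n : ℂ)⁻¹ * ∑ j, a p (t j)‖ ≤ ε := by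
  have hm : ∀ p, ‖∑ x, (π x : ℂ) * a p x‖ ≤ 1 := fun p => by
    refine (norm_sum_le _ _).trans (le_trans (Finset.sum_le_sum fun x _ => ?_) hπ.le)
    rw [norm_mul, Complex.norm_real, Real.norm_of_nonneg (h0 x)]
    exact mul_le_of_le_one_right (h0 x) (h1 p x)
  obtain ⟨t, ht⟩ := maureyR (P := P × Bool × Bool) π h0 hπ
    (fun q x => sg q.2 (∑ y, (π y : ℂ) * a q.1 y - a q.1 x) / 2)
    (fun q x => by
      rw [abs_div, abs_two, div_le_one two_pos]
      exact (abs_sg _ _).trans ((norm_sub_le _ _).trans (by linarith [hm q.1, h1 q.1 x])))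
    (fun q => by
      simp only [← mul_div_assoc, ← sg_mul]
      rw [← Finset.sum_div, ← sg_sum]
      simp only [mul_sub]
      rw [Finset.sum_sub_distrib, ← Finset.sum_mul, ← Complex.ofReal_sum, hπ]
      rcases q with ⟨p, _ | _, _ | _⟩ <;> simp [sg])
    (δ := ε / 4) (by positivity) (by linarith) (n := n) (by
      simp only [Fintype.card_prod, Fintype.card_bool]
      push_cast
      rw [mul_comm (Fintype.card P : ℝ)]
      linarith)
  refine ⟨t, fun p => ?_⟩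
  have n1 : (0 : ℝ) < n := by exact_mod_cast n0
  have k : ‖∑ j, (∑ y, (π y : ℂ) * a p y - a p (t j))‖ ≤ 2 * (n * ε / 2) := norm_le_sg fun b => by
    have := ht (p, b)
    simp only at this
    rw [← Finset.sum_div, ← sg_sum] at this
    linarith
  rw [Finset.sum_sub_distrib, Finset.sum_const, Finset.card_univ, Fintype.card_fin,
    nsmul_eq_mul] at k
  have e : ∑ x, (π x : ℂ) * a p x - (n : ℂ)⁻¹ * ∑ j, a p (t j) =
      (n : ℂ)⁻¹ * (n * ∑ x, (π x : ℂ) * a p x - ∑ j, a p (t j)) := by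
    have : (n : ℂ) ≠ 0 := by exact_mod_cast n0.ne'
    field_simp
  rw [e, norm_mul, norm_inv, Complex.norm_natCast, inv_mul_le_iff₀ n1]
  linarith

/-- one term of a twisted sum -/
def tm {D Ξ Aa Ee : Type} (φ : Aa → D → ℂ) (ψ : Ξ → Ee → ℂ) (q : Aa × Ee) :
    Option (D × Ξ × Bool × Bool) → ℂ
  | none => 0
  | some x => φ q.1 x.1 * (ph x.2.2 * ψ x.2.1 q.2)

/-- a net for twisted sums with coefficients of bounded total mass -/
theorem twNet {D Ξ Aa Ee : Type} [Fintype D] [Fintype Ξ] [Fintype Aa] [Fintype Ee]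
    (φ : Aa → D → ℂ) (ψ : Ξ → Ee → ℂ) (hφ : ∀ a d, ‖φ a d‖ ≤ 1) (hψ : ∀ ξ e, ‖ψ ξ e‖ ≤ 1)
    {ε : ℝ} (e0 : 0 < ε) (e1 : ε ≤ 1) {n : ℕ} (n0 : 0 < n)
    (hn : 64 * Real.log (4 * (Fintype.card Aa * Fintype.card Ee)) ≤ n * ε ^ 2) :
    ∃ S : Finset (Aa → Ee → ℂ), (∀ Φ ∈ S, ∀ a e, ‖Φ a e‖ ≤ 1) ∧
      S.card ≤ (4 * Fintype.card D * Fintype.card Ξ + 1) ^ n ∧
      ∀ (A : ℝ) (w : D → ℝ) (lam : D → Ξ → ℂ), 0 < A → (∀ d, 0 ≤ w d) → ∑ d, w d ≤ 1 →
        (∀ d, ∑ ξ, ‖lam d ξ‖ ≤ A) → ∃ Φ ∈ S, ∀ a e,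
          ‖∑ d, (w d : ℂ) * (φ a d * ∑ ξ, lam d ξ * ψ ξ e) - 2 * A * Φ a e‖ ≤ 2 * A * ε := by
  classical
  have n1 : (0 : ℝ) < n := by exact_mod_cast n0
  have ht : ∀ q x, ‖tm φ ψ q x‖ ≤ 1 := by
    rintro q (_ | x)
    · simp [tm]
    · simp only [tm, norm_mul, norm_ph, one_mul]
      exact mul_le_one₀ (hφ _ _) (norm_nonneg _) (hψ _ _)
  refine ⟨Finset.univ.image fun (t : Fin n → Option (D × Ξ × Bool × Bool)) a e =>
    (n : ℂ)⁻¹ * ∑ j, tm φ ψ (a, e) (t j), fun Φ hΦ a e => ?_, ?_, fun A w lam hA w0 w1 hl => ?_⟩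
  · obtain ⟨t, -, rfl⟩ := Finset.mem_image.1 hΦ
    rw [norm_mul, norm_inv, Complex.norm_natCast, inv_mul_le_iff₀ n1]
    refine (norm_sum_le _ _).trans ((Finset.sum_le_sum fun j _ => ht _ _).trans ?_)
    simp
  · refine Finset.card_image_le.trans (le_of_eq ?_)
    simp only [Finset.card_univ, Fintype.card_fun, Fintype.card_option, Fintype.card_prod,
      Fintype.card_bool, Fintype.card_fin]
    congr 2
    ring
  · let ρ : D × Ξ × Bool × Bool → ℝ := fun x => w x.1 * max (sg x.2.2 (lam x.1 x.2.1)) 0 / (2 * A)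
    have r0 : ∀ x, 0 ≤ ρ x := fun x =>
      div_nonneg (mul_nonneg (w0 _) (le_max_right _ _)) (by positivity)
    have r1 : ∑ x, ρ x ≤ 1 := by
      simp only [ρ]
      rw [← Finset.sum_div, div_le_one (by positivity), Fintype.sum_prod_type]
      refine (Finset.sum_le_sum (g := fun d => w d * (2 * A)) fun d _ => ?_).trans ?_
      · simp only
        rw [← Finset.mul_sum, Fintype.sum_prod_type]
        refine mul_le_mul_of_nonneg_left ?_ (w0 d)
        refine (Finset.sum_le_sum fun ξ _ => sum_max (lam d ξ)).trans ?_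
        rw [← Finset.mul_sum]
        linarith [hl d]
      · rw [← Finset.sum_mul]
        exact mul_le_of_le_one_left (by positivity) w1
    obtain ⟨t, k⟩ := maurey (P := Aa × Ee) (fun o : Option (D × Ξ × Bool × Bool) =>
      o.elim (1 - ∑ x, ρ x) ρ) (by rintro (_ | x); exacts [sub_nonneg.2 r1, r0 x])
      (by simp [Fintype.sum_option]) (tm φ ψ) ht e0 e1 n0 (by simpa using hn)
    refine ⟨_, Finset.mem_image_of_mem _ (Finset.mem_univ t), fun a e => ?_⟩
    have k1 := k (a, e)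
    have e2 : ∑ d, (w d : ℂ) * (φ a d * ∑ ξ, lam d ξ * ψ ξ e) =
        2 * A * ∑ x : Option (D × Ξ × Bool × Bool),
          ((x.elim (1 - ∑ x, ρ x) ρ : ℝ) : ℂ) * tm φ ψ (a, e) x := by
      rw [Fintype.sum_option]
      simp only [tm, mul_zero, zero_add, Option.elim_some, Finset.mul_sum, Fintype.sum_prod_type
        (α₁ := D), Fintype.sum_prod_type (α₁ := Ξ)]
      refine Finset.sum_congr rfl fun d _ => Finset.sum_congr rfl fun ξ _ => ?_
      conv_lhs => rw [← sum_ph (lam d ξ), Finset.sum_mul, Finset.mul_sum, Finset.mul_sum]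
      refine Finset.sum_congr rfl fun b _ => ?_
      have : (A : ℂ) ≠ 0 := by exact_mod_cast hA.ne'
      simp only [ρ]
      push_cast
      field_simp
    rw [e2, ← mul_sub, norm_mul]
    refine mul_le_mul (le_of_eq ?_) k1 (norm_nonneg _) (by positivity)
    rw [norm_mul, Complex.norm_real, Real.norm_of_nonneg hA.le]
    simp

end Pool.Agent.MP_154433_an.T6H

end
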